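import Pool.Agent.H990.SP.Final

/-!
# The coordinates of Weyl-Heisenberg SIC fiducials modulo `p`

Let `p ≥ 5` be prime and let `(w, u)` be a solution of the equations of a Weyl-Heisenberg SIC
fiducial in dimension `p` over a field of characteristic zero (for a fiducial vector `ψ` take
`u = ψ`, `w = ⟨ψ, ·⟩`). We consider the coordinates of `u` and `w` in the `p + 1` bases of common
eigenvectors of displacement operators, and a place of the field over `p`. We show that, with the
exception of at most one basis, the coordinates of `u` and of `w` in the basis, scaled by suitable
factors, are modulo the place nonzero polynomial functions of the index `y ∈ ℤ / p`, and that the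
sum of the degrees of the two polynomials is at most `(p - 3) / 2`. As a consequence, a fiducial
vector has at most `(p - 3) / 4` vanishing coordinates in all of the `p + 1` bases with the
exception of at most one; for instance none at all in five of the six bases in dimension five.

Idea of the proof. In a basis with coordinates `w (x)`, `u (y)` the overlaps are the Fourier
transforms of the cyclic diagonals `x ↦ w (x) u (x + a)`. If some product `w (x) u (y)` is larger
than all overlaps at the place, then the sums of the reduced diagonals vanish, and also the
autocorrelation of the reduced main diagonal. For functions on `ℤ / p` with values in a field of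
characteristic `p` the vanishing of a correlation means that the sum of the degrees is less than
`p - 1`. Applied to `w` and `u`, and then to their product, this shows that the sum of the degrees
is at most `(p - 3) / 2`. If there is no such product then the overlaps, divided by a largest one,
are modulo the place invariant under the line that belongs to the basis. So if this happens for two
bases then the overlaps are all congruent to `1`, the sum of the degrees is `p - 1`, and comparing
the leading coefficients in `∑ w (x) ^ 2 u (x + a) u (x - a) = 0`, `a ≠ 0`, gives `p = 3`.
-/

set_option autoImplicit false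

namespace Pool.Agent.Results.MP_1c78a5_mp.CoordinatesModuloP

open Pool.Agent.H990.SF Pool.Agent.H990.SP

/-- **The coordinates of Weyl-Heisenberg SIC fiducials modulo `p`.** -/
theorem result (p : ℕ) [Fact p.Prime] (hp : 5 ≤ p) :
    (∀ (K : Type*) [Field K] [CharZero K] (χ : AddChar (ZMod p) K), χ.IsPrimitive →
      ∀ B : ValuationSubring K, (p : K) ∈ B.nonunits →
      ∀ w u : ZMod p → K, IsSolution χ w u →
      ∀ k k' : Option (ZMod p), k ≠ k' → LowDegree B χ w u k ∨ LowDegree B χ w u k') ∧
    (∀ ψ : ZMod p → ℂ, IsFiducial ψ →
      ∀ k k' : Option (ZMod p), k ≠ k' → 4 * zeroCount ψ k + 3 ≤ p ∨ 4 * zeroCount ψ k' + 3 ≤ p) :=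
  ⟨fun _ _ _ _ hχ B hB _ _ hS k k' hk => lowDegree hp hχ B hB hS k k' hk,
    fun _ hψ k k' hk => zeroCount_le hp hψ k k' hk⟩

end Pool.Agent.Results.MP_1c78a5_mp.CoordinatesModuloP
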