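import Pool.Agent.H138.Cnt.NumFrames

/-!
# The number of Weyl–Heisenberg SICs in prime dimension

`X|j⟩ = |j+1⟩`, `Z|j⟩ = ω^j |j⟩`, `ω = e^{2πi/p}`.  A Weyl–Heisenberg SIC fiducial is a unit vector `ψ` of `ℂ^p` with
`|⟨ψ|X^a Z^b|ψ⟩|² = 1/(p+1)` for all `(a,b) ≠ (0,0)`; its SIC is the set of the `p²` lines spanned by the vectors
`X^a Z^b ψ`.

Let `p ≥ 5` be a prime.  The number of the Weyl–Heisenberg covariant SICs of `ℂ^p` is finite and divisible by `p 2^k`,
where `2^k` is the largest power of two dividing `p² - 1`; in particular it is divisible by `8 p` (it is `80` for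
`p = 5` and `336` for `p = 7`, numerically), and the number of the fiducials up to phases is divisible by `8 p³`.

Proof (`Pool.Agent.H138.Cnt`): `SL(2,p)` acts on the SICs by the Clifford group; a SIC is determined by its triple
products, and neither a transvection nor `-1` can stabilise a SIC, so that the stabilisers have an odd order prime to `p`.
-/

set_option autoImplicit false

namespace Pool.Agent.Results.MP_1c78a5_mp.NumberOfSICs

variable {p : ℕ} [Fact p.Prime]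

/-- The vector `X^a Z^b ψ`, where `X|j⟩ = |j+1⟩` and `Z|j⟩ = exp(2 π i j / p) |j⟩`:
`(X^a Z^b ψ)(k) = exp(2 π i b (k - a) / p) ψ(k - a)`. -/
noncomputable def disp (a b : ZMod p) (ψ : EuclideanSpace ℂ (ZMod p)) : EuclideanSpace ℂ (ZMod p) :=
  WithLp.toLp 2 (fun k => ZMod.stdAddChar (b * (k - a)) * ψ (k - a))

/-- `ψ` is a Weyl–Heisenberg SIC fiducial: a unit vector with `|⟨ψ|X^a Z^b|ψ⟩|² = 1/(p+1)` for all
`(a,b) ≠ (0,0)`. -/
def IsFiducial (ψ : EuclideanSpace ℂ (ZMod p)) : Prop :=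
  ‖ψ‖ = 1 ∧ ∀ a b : ZMod p, (a, b) ≠ (0, 0) → ‖inner ℂ ψ (disp a b ψ)‖ ^ 2 = 1 / ((p : ℝ) + 1)

/-- The set of the lines spanned by the vectors `X^a Z^b ψ`. -/
def lines (ψ : EuclideanSpace ℂ (ZMod p)) : Set (Submodule ℂ (EuclideanSpace ℂ (ZMod p))) :=
  {L | ∃ a b : ZMod p, L = Submodule.span ℂ {disp a b ψ}}

variable (p) in
/-- The Weyl–Heisenberg covariant SICs of `ℂ^p`, as sets of lines. -/
def SICs : Set (Set (Submodule ℂ (EuclideanSpace ℂ (ZMod p)))) :=
  {S | ∃ ψ, IsFiducial ψ ∧ S = lines ψ}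

open Pool.Agent.H138.Cnt

theorem disp_eq (a b : ZMod p) (ψ : EuclideanSpace ℂ (ZMod p)) :
    disp a b ψ = e (-(b * a)) • NumFrames.disp (-a, b) ψ := by
  ext k
  simp only [disp, NumFrames.disp, PiLp.smul_apply, smul_eq_mul]
  have h1 : k + -a = k - a := by ring
  have h2 : (ZMod.stdAddChar (b * (k - a)) : ℂ) = e (-(b * a)) * ZMod.stdAddChar (b * k) := by
    rw [e, ← AddChar.map_add_eq_mul]
    congr 1
    ring
  rw [h1, h2, mul_assoc]

theorem lines_eq (ψ : EuclideanSpace ℂ (ZMod p)) : lines ψ = NumFrames.lines ψ := by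
  have h1 : ∀ a b : ZMod p, Submodule.span ℂ {disp a b ψ} = Submodule.span ℂ {NumFrames.disp (-a, b) ψ} := by
    intro a b
    rw [disp_eq]
    exact Submodule.span_singleton_smul_eq (IsUnit.mk0 _ (e_ne _)) _
  ext L
  constructor
  · rintro ⟨a, b, rfl⟩
    exact ⟨(-a, b), (h1 a b).symm⟩
  · rintro ⟨⟨a, b⟩, rfl⟩
    refine ⟨-a, b, ?_⟩
    rw [h1, neg_neg]

theorem fid_iff (ψ : EuclideanSpace ℂ (ZMod p)) : IsFiducial ψ ↔ NumFrames.OrbitIsMaxETF ψ := by
  have hp : (0 : ℝ) < (p : ℝ) + 1 := by positivity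
  have key : ∀ x : ℝ, 0 ≤ x → (x ^ 2 = 1 / ((p : ℝ) + 1) ↔ x = 1 / √((p : ℝ) + 1)) := by
    intro x hx
    have h1 : (1 / √((p : ℝ) + 1)) ^ 2 = 1 / ((p : ℝ) + 1) := by
      rw [div_pow, one_pow, Real.sq_sqrt hp.le]
    rw [← h1]
    exact pow_left_inj₀ hx (by positivity) two_ne_zero
  have h2 : ∀ a b : ZMod p, ‖inner ℂ ψ (disp a b ψ)‖ = ‖inner ℂ ψ (NumFrames.disp (-a, b) ψ)‖ := by
    intro a b
    rw [disp_eq, inner_smul_right, norm_mul, e_norm, one_mul]
  constructor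
  · rintro ⟨h3, h4⟩
    refine ⟨fun g => by rw [NumFrames.norm_disp, h3], fun g k hgk => ?_⟩
    rw [NumFrames.inner_disp_disp]
    have h5 : (-(k - g).1, (k - g).2) ≠ ((0 : ZMod p), (0 : ZMod p)) := by
      intro h6
      apply hgk
      have h7 := congrArg Prod.fst h6
      have h8 := congrArg Prod.snd h6
      simp only at h7 h8
      ext
      · have h9 : (k - g).1 = 0 := neg_eq_zero.mp h7
        rw [Prod.fst_sub, sub_eq_zero] at h9
        exact h9.symm
      · rw [Prod.snd_sub, sub_eq_zero] at h8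
        exact h8.symm
    have h6 := h4 _ _ h5
    rw [h2, neg_neg] at h6
    exact (key _ (norm_nonneg _)).mp h6
  · rintro ⟨h3, h4⟩
    refine ⟨by simpa only [NumFrames.disp_zero] using h3 0, fun a b hab => ?_⟩
    rw [h2, key _ (norm_nonneg _)]
    have h5 := h4 0 (-a, b) (fun h6 => hab (by
      have h7 := congrArg Prod.fst h6
      have h8 := congrArg Prod.snd h6
      simp only [Prod.fst_zero, Prod.snd_zero] at h7 h8
      rw [← h8, neg_eq_zero.mp h7.symm]))
    rwa [NumFrames.disp_zero] at h5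

/-- Let `p ≥ 5` be a prime.  There are only finitely many Weyl–Heisenberg covariant SICs in dimension `p`, and their
number is divisible by `p 2^k`, where `2^k` is the largest power of two dividing `p² - 1`. -/
theorem result (p : ℕ) [Fact p.Prime] (hp5 : 5 ≤ p) :
    (SICs p).Finite ∧ p * 2 ^ padicValNat 2 (p ^ 2 - 1) ∣ (SICs p).ncard := by
  have h : SICs p = NumFrames.frames p := by
    ext S
    constructor
    · rintro ⟨ψ, h1, rfl⟩
      exact ⟨ψ, (fid_iff ψ).mp h1, lines_eq ψ⟩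
    · rintro ⟨ψ, h1, rfl⟩
      exact ⟨ψ, (fid_iff ψ).mpr h1, (lines_eq ψ).symm⟩
  rw [h]
  exact NumFrames.main p hp5

end Pool.Agent.Results.MP_1c78a5_mp.NumberOfSICs
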