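import Pool.Agent.H138.Cnt.CliffSym

/-!
# The Clifford symmetries of a Weyl–Heisenberg SIC fiducial in prime dimension

`X|j⟩ = |j+1⟩`, `Z|j⟩ = ω^j |j⟩`, `ω = e^{2πi/p}`.  A Weyl–Heisenberg SIC fiducial is a unit vector `ψ` of `ℂ^p` with
`|⟨ψ|X^a Z^b|ψ⟩|² = 1/(p+1)` for all `(a,b) ≠ (0,0)`.

Let `p ≥ 5` be a prime and let `ψ` be a fiducial.  The group `G` of the permutations of the `p²` lines of the SIC which
are induced by unitary transformations normalising the Weyl–Heisenberg group is either the group `F_p²` of translations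
or a Frobenius group `F_p² ⋊ C` with a cyclic complement `C` of odd order dividing `p - 1` or `p + 1`; a symmetry which
is not a translation fixes exactly one of the lines.

(Zauner's conjecture predicts that there is a fiducial for which `3` divides the order of `C`.)

Proof: `Pool.Agent.H138.Cnt`.
-/

set_option autoImplicit false

namespace Pool.Agent.Results.MP_1c78a5_mp.SymmetryGroup

variable {p : ℕ} [Fact p.Prime]

/-- The vector `D_(a,b) ψ = X^a Z^b ψ`, where `X|j⟩ = |j+1⟩` and `Z|j⟩ = exp(2 π i j / p) |j⟩`: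
`(X^a Z^b ψ)(k) = exp(2 π i b (k - a) / p) ψ(k - a)`. -/
noncomputable def disp (g : ZMod p × ZMod p) (ψ : EuclideanSpace ℂ (ZMod p)) :
    EuclideanSpace ℂ (ZMod p) :=
  WithLp.toLp 2 (fun k => ZMod.stdAddChar (g.2 * (k - g.1)) * ψ (k - g.1))

/-- `ψ` is a Weyl–Heisenberg SIC fiducial: a unit vector with `|⟨ψ|D_g|ψ⟩|² = 1/(p+1)` for all `g ≠ 0`. -/
def IsFiducial (ψ : EuclideanSpace ℂ (ZMod p)) : Prop :=
  ‖ψ‖ = 1 ∧ ∀ g : ZMod p × ZMod p, g ≠ 0 → ‖inner ℂ ψ (disp g ψ)‖ ^ 2 = 1 / ((p : ℝ) + 1)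

/-- The permutation `π` of the lines `ℂ D_g ψ` (indexed by `g`) is induced by a unitary transformation `U` which
normalises the Weyl–Heisenberg group: for every `g` there is an `h` with `U D_g U⁻¹ ∈ ℂ D_h`, and `U` maps the line of
`D_g ψ` to the line of `D_(π g) ψ`. -/
def IsCliffordSymmetry (ψ : EuclideanSpace ℂ (ZMod p)) (π : Equiv.Perm (ZMod p × ZMod p)) : Prop :=
  ∃ U : EuclideanSpace ℂ (ZMod p) ≃ₗᵢ[ℂ] EuclideanSpace ℂ (ZMod p),
    (∀ g, ∃ h : ZMod p × ZMod p, ∃ c : ℂ, ∀ x, U (disp g x) = c • disp h (U x)) ∧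
    ∀ g, ∃ c : ℂ, U (disp g ψ) = c • disp (π g) ψ

open Pool.Agent.H138.Cnt

/-- the change of the index -/
def s (g : ZMod p × ZMod p) : ZMod p × ZMod p := (-g.1, g.2)

theorem s_s (g : ZMod p × ZMod p) : s (s g) = g := by
  ext <;> simp [s]

theorem s_add (g h : ZMod p × ZMod p) : s (g + h) = s g + s h := by
  ext
  · simp [s, add_comm]
  · simp [s]

theorem s_zero : s (0 : ZMod p × ZMod p) = 0 := by
  ext <;> simp [s]

theorem s_inj {g h : ZMod p × ZMod p} (e : s g = s h) : g = h := by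
  rw [← s_s g, e, s_s]

theorem disp_eq (g : ZMod p × ZMod p) (ψ : EuclideanSpace ℂ (ZMod p)) :
    disp g ψ = e (-(g.2 * g.1)) • CliffSym.disp (s g) ψ := by
  ext k
  simp only [disp, CliffSym.disp, PiLp.smul_apply, smul_eq_mul, s]
  have h1 : k + -g.1 = k - g.1 := by ring
  have h2 : (ZMod.stdAddChar (g.2 * (k - g.1)) : ℂ) = e (-(g.2 * g.1)) * ZMod.stdAddChar (g.2 * k) := by
    rw [e, ← AddChar.map_add_eq_mul]
    congr 1
    ring
  rw [h1, h2, mul_assoc]

theorem old_eq (g : ZMod p × ZMod p) (ψ : EuclideanSpace ℂ (ZMod p)) :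
    CliffSym.disp g ψ = (e (-((s g).2 * (s g).1)))⁻¹ • disp (s g) ψ := by
  rw [disp_eq, smul_smul, inv_mul_cancel₀ (e_ne _), one_smul, s_s]

theorem etf (ψ : EuclideanSpace ℂ (ZMod p)) (h : IsFiducial ψ) : CliffSym.OrbitIsMaxETF ψ := by
  have hp : (0 : ℝ) < (p : ℝ) + 1 := by positivity
  have key : ∀ x : ℝ, 0 ≤ x → x ^ 2 = 1 / ((p : ℝ) + 1) → x = 1 / √((p : ℝ) + 1) := by
    intro x hx hx2
    have h1 : (1 / √((p : ℝ) + 1)) ^ 2 = 1 / ((p : ℝ) + 1) := by
      rw [div_pow, one_pow, Real.sq_sqrt hp.le]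
    rw [← h1] at hx2
    exact (pow_left_inj₀ hx (by positivity) two_ne_zero).mp hx2
  obtain ⟨h3, h4⟩ := h
  refine ⟨fun g => by rw [CliffSym.norm_disp, h3], fun g k hgk => ?_⟩
  rw [CliffSym.inner_disp_disp, norm_mul, e_norm, one_mul, old_eq, inner_smul_right, norm_mul, norm_inv,
    e_norm, inv_one, one_mul]
  apply key _ (norm_nonneg _)
  apply h4
  intro h5
  apply hgk
  have h6 : k - g = 0 := by rw [← s_s (k - g), h5, s_zero]
  exact (sub_eq_zero.mp h6).symm

/-- the permutation `s` -/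
def S : Equiv.Perm (ZMod p × ZMod p) := ⟨s, s, s_s, s_s⟩

theorem sym_iff (ψ : EuclideanSpace ℂ (ZMod p)) (π : Equiv.Perm (ZMod p × ZMod p)) :
    IsCliffordSymmetry ψ π ↔ CliffSym.IsCliffordSymmetry ψ (S * π * S⁻¹) := by
  have hS : ∀ g, (S * π * S⁻¹ : Equiv.Perm (ZMod p × ZMod p)) g = s (π (s g)) := fun g => rfl
  constructor
  · rintro ⟨U, h1, h2⟩
    refine ⟨U, fun g => ?_, fun g => ?_⟩
    · obtain ⟨h, c, hc⟩ := h1 (s g)
      refine ⟨s h, (e (-((s g).2 * (s g).1)))⁻¹ * (c * e (-(h.2 * h.1))), fun x => ?_⟩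
      rw [old_eq, map_smul, hc, disp_eq h, smul_smul, smul_smul, mul_assoc]
    · obtain ⟨c, hc⟩ := h2 (s g)
      refine ⟨(e (-((s g).2 * (s g).1)))⁻¹ * (c * e (-((π (s g)).2 * (π (s g)).1))), ?_⟩
      rw [old_eq, map_smul, hc, disp_eq (π (s g)), smul_smul, smul_smul, hS, mul_assoc]
  · rintro ⟨U, h1, h2⟩
    refine ⟨U, fun g => ?_, fun g => ?_⟩
    · obtain ⟨h, c, hc⟩ := h1 (s g)
      refine ⟨s h, e (-(g.2 * g.1)) * (c * (e (-((s h).2 * (s h).1)))⁻¹), fun x => ?_⟩
      rw [disp_eq, map_smul, hc, old_eq h, smul_smul, smul_smul, mul_assoc]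
    · obtain ⟨c, hc⟩ := h2 (s g)
      rw [hS, s_s] at hc
      refine ⟨e (-(g.2 * g.1)) * (c * (e (-((s (s (π g))).2 * (s (s (π g))).1)))⁻¹), ?_⟩
      rw [disp_eq, map_smul, hc, old_eq (s (π g)), smul_smul, smul_smul, s_s, mul_assoc]

/-- Let `p ≥ 5` be a prime and let `ψ` be a Weyl–Heisenberg SIC fiducial.  The permutations of the lines `ℂ D_g ψ`,
`g ∈ F_p²`, which are induced by unitary transformations normalising the Weyl–Heisenberg group form a group `G` of
affine maps which contains all translations; the stabiliser `C` of a line is cyclic, its order is odd and divides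
`p - 1` or `p + 1`, `|G| = p² |C|`, and every element of `G` which is not a translation fixes exactly one line. -/
theorem result (p : ℕ) [Fact p.Prime] (hp5 : 5 ≤ p) (ψ : EuclideanSpace ℂ (ZMod p))
    (hψ : IsFiducial ψ) : ∃ G : Subgroup (Equiv.Perm (ZMod p × ZMod p)),
    (∀ π, π ∈ G ↔ IsCliffordSymmetry ψ π) ∧ (∀ k, Equiv.addRight k ∈ G) ∧
    (∀ π ∈ G, ∀ g h, π (g + h) + π 0 = π g + π h) ∧
    IsCyclic (MulAction.stabilizer G (0 : ZMod p × ZMod p)) ∧
    Odd (Nat.card (MulAction.stabilizer G (0 : ZMod p × ZMod p))) ∧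
    (Nat.card (MulAction.stabilizer G (0 : ZMod p × ZMod p)) ∣ p - 1 ∨
      Nat.card (MulAction.stabilizer G (0 : ZMod p × ZMod p)) ∣ p + 1) ∧
    Nat.card G = p ^ 2 * Nat.card (MulAction.stabilizer G (0 : ZMod p × ZMod p)) ∧
    ∀ π ∈ G, (∃ k, ∀ g, π g = g + k) ∨ ∃! g, π g = g := by
  obtain ⟨G, h1, h2, h3, h4, h5, h6, h7, h8⟩ := CliffSym.main p hp5 ψ (etf ψ hψ)
  have hSS : (S : Equiv.Perm (ZMod p × ZMod p)) * S = 1 := Equiv.ext fun g => s_s g
  have hSi : (S : Equiv.Perm (ZMod p × ZMod p))⁻¹ = S := inv_eq_of_mul_eq_one_left hSS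
  -- the conjugate group
  let f : Equiv.Perm (ZMod p × ZMod p) ≃* Equiv.Perm (ZMod p × ZMod p) := MulAut.conj S
  let F : Equiv.Perm (ZMod p × ZMod p) →* Equiv.Perm (ZMod p × ZMod p) := f
  have hf : ∀ ρ, f ρ = S * ρ * S⁻¹ := fun ρ => rfl
  have hff : ∀ ρ, f (f ρ) = ρ := by
    intro ρ
    rw [hf, hf, hSi, ← mul_assoc, ← mul_assoc, hSS, one_mul, mul_assoc, hSS, mul_one]
  have hfa : ∀ ρ g, (f ρ) g = s (ρ (s g)) := fun ρ g => rfl
  have hmem : ∀ π, π ∈ G.map F ↔ f π ∈ G := by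
    intro π
    rw [Subgroup.mem_map]
    constructor
    · rintro ⟨ρ, hρ, rfl⟩
      show f (f ρ) ∈ G
      rw [hff]
      exact hρ
    · intro h
      exact ⟨_, h, hff π⟩
  let E : G ≃* G.map F := f.subgroupMap G
  have hE : ∀ x : G, ((E x : G.map F) : Equiv.Perm (ZMod p × ZMod p)) = f x := fun x => rfl
  have hst : MulAction.stabilizer (G.map F) (0 : ZMod p × ZMod p) =
      (MulAction.stabilizer G (0 : ZMod p × ZMod p)).map (E : G →* G.map F) := by
    ext y
    obtain ⟨x, rfl⟩ := E.surjective y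
    rw [MulAction.mem_stabilizer_iff, Subgroup.mem_map]
    constructor
    · intro h
      refine ⟨x, ?_, rfl⟩
      rw [MulAction.mem_stabilizer_iff]
      have h9 : (f x) (0 : ZMod p × ZMod p) = 0 := h
      rw [hfa, s_zero] at h9
      show ((x : Equiv.Perm (ZMod p × ZMod p))) 0 = 0
      apply s_inj
      rw [h9, s_zero]
    · rintro ⟨z, hz, hzx⟩
      have h9 : z = x := E.injective hzx
      subst h9
      show (f z) (0 : ZMod p × ZMod p) = 0
      have h10 : ((z : Equiv.Perm (ZMod p × ZMod p))) 0 = 0 := MulAction.mem_stabilizer_iff.mp hz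
      rw [hfa, s_zero, h10, s_zero]
  let E2 := E.subgroupMap (MulAction.stabilizer G (0 : ZMod p × ZMod p))
  have hcard : Nat.card (MulAction.stabilizer (G.map F) (0 : ZMod p × ZMod p)) =
      Nat.card (MulAction.stabilizer G (0 : ZMod p × ZMod p)) := by
    rw [hst]
    exact (Nat.card_congr E2.toEquiv).symm
  refine ⟨G.map F, fun π => ?_, fun k => ?_, fun π hπ g h => ?_, ?_, ?_, ?_, ?_, fun π hπ => ?_⟩
  · rw [hmem, h1, sym_iff]
    rfl
  · rw [hmem]
    have : f (Equiv.addRight k) = Equiv.addRight (s k) := by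
      ext1 g
      rw [hfa]
      show s (s g + k) = g + s k
      rw [s_add, s_s]
    rw [this]
    exact h2 _
  · have h9 := h3 _ ((hmem π).mp hπ) (s g) (s h)
    rw [hfa, hfa, hfa, hfa, s_add, s_s, s_s, s_zero, ← s_add, ← s_add] at h9
    exact s_inj h9
  · rw [hst]
    exact isCyclic_of_surjective E2 E2.surjective
  · rw [hcard]; exact h5
  · rw [hcard]; exact h6
  · rw [hcard, ← h7]
    exact (Nat.card_congr E.toEquiv).symm
  · rcases h8 _ ((hmem π).mp hπ) with ⟨k, hk⟩ | ⟨g, hg, hu⟩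
    · left
      refine ⟨s k, fun g => ?_⟩
      have h9 := hk (s g)
      rw [hfa, s_s] at h9
      apply s_inj
      rw [h9, s_add, s_s]
    · right
      refine ⟨s g, ?_, fun h hh => ?_⟩
      · have h9 : (f π) g = g := hg
        rw [hfa] at h9
        show π (s g) = s g
        apply s_inj
        rw [h9, s_s]
      · have h9 : s h = g := by
          apply hu
          show (f π) (s h) = s h
          rw [hfa, s_s, hh]
        rw [← h9, s_s]

end Pool.Agent.Results.MP_1c78a5_mp.SymmetryGroup
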